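import Mathlib

/-!
# Linear covering codes: `f_all(r) ≥ 2 f(r)` (MP_e73f90_co), preparation
-/

set_option autoImplicit false

namespace Pool.Agent.K7.H24.FA

open Finset Filter Topology

/-- The number of words of `F_2^n` of Hamming weight at most `r`. -/
noncomputable def ball (n r : ℕ) : ℕ :=
  (Finset.univ.filter (fun x : Fin n → ZMod 2 => hammingNorm x ≤ r)).card

/-- `V` is a covering subspace of radius `r`. -/
def Covers (n r : ℕ) (V : Submodule (ZMod 2) (Fin n → ZMod 2)) : Prop :=
  ∀ y : Fin n → ZMod 2, ∃ v ∈ V, hammingNorm (y - v) ≤ r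

/-- `m(n, r)`: the infimum of `|V| |B(n, r)| / 2^n` over the covering subspaces `V` of radius `r`. -/
noncomputable def m (n r : ℕ) : ℝ :=
  sInf {t : ℝ | ∃ V : Submodule (ZMod 2) (Fin n → ZMod 2), Covers n r V ∧
    t = (Nat.card V : ℝ) * ball n r / 2 ^ n}

/-- `f_all(r) = limsup m(n, r)`, in `[0, ∞]`. -/
noncomputable def fAll (r : ℕ) : ENNReal := limsup (fun n => ENNReal.ofReal (m n r)) atTop

/-- `f(r) = liminf m(n, r)`, in `[0, ∞]`. -/
noncomputable def fInf (r : ℕ) : ENNReal := liminf (fun n => ENNReal.ofReal (m n r)) atTop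

lemma zmod2 (a : ZMod 2) : a = 0 ∨ a = 1 := by
  revert a; decide

lemma card_wt (r k : ℕ) :
    (Finset.univ.filter fun s : Fin r → ZMod 2 => hammingNorm s = k).card = r.choose k := by
  classical
  have h : r.choose k = (powersetCard k (univ : Finset (Fin r))).card := by
    rw [card_powersetCard, card_univ, Fintype.card_fin]
  rw [h]
  apply Finset.card_bij (fun s _ => univ.filter fun i => s i ≠ 0)
  · intro s hs
    rw [mem_filter] at hs
    rw [mem_powersetCard]
    exact ⟨subset_univ _, hs.2⟩
  · intro s _ s' _ he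
    ext i
    have h1 := congrArg (fun T => i ∈ T) he
    simp only [mem_filter, mem_univ, true_and, ne_eq, eq_iff_iff, not_iff_not] at h1
    rcases zmod2 (s i) with e | e
    · rw [e, h1.1 e]
    · rcases zmod2 (s' i) with e' | e'
      · rw [h1.2 e', e']
      · rw [e, e']
  · intro T hT
    rw [mem_powersetCard] at hT
    have h2 : (univ.filter fun i : Fin r => (if i ∈ T then (1 : ZMod 2) else 0) ≠ 0) = T := by
      ext i
      by_cases hi : i ∈ T <;> simp [hi]
    refine ⟨fun i => if i ∈ T then 1 else 0, ?_, h2⟩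
    rw [mem_filter]
    refine ⟨mem_univ _, ?_⟩
    unfold hammingNorm
    rw [h2, hT.2]

lemma ball_eq (n r : ℕ) : ball n r = ∑ k ∈ range (r + 1), n.choose k := by
  unfold ball
  rw [Finset.card_eq_sum_card_fiberwise (f := fun x : Fin n → ZMod 2 => hammingNorm x)
    (t := range (r + 1))]
  · refine Finset.sum_congr rfl fun k hk => ?_
    rw [← card_wt n k, Finset.filter_filter]
    congr 1
    ext x
    simp only [mem_filter, mem_univ, true_and, mem_range] at hk ⊢
    constructor
    · exact fun h => h.2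
    · intro h
      exact ⟨by omega, h⟩
  · intro x hx
    simp only [coe_filter, mem_univ, true_and, Set.mem_ofPred_eq] at hx
    simp only [coe_range, Set.mem_Iio]
    omega

lemma ball_pos (n r : ℕ) : 0 < ball n r := by
  rw [ball_eq]
  have : n.choose 0 ≤ ∑ k ∈ range (r + 1), n.choose k :=
    Finset.single_le_sum (f := fun k => n.choose k) (fun _ _ => Nat.zero_le _)
      (by simp)
  simp only [Nat.choose_zero_right] at this
  omega

lemma le_ball {n r : ℕ} (hr : 1 ≤ r) : n ≤ ball n r := by
  rw [ball_eq]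
  have : n.choose 1 ≤ ∑ k ∈ range (r + 1), n.choose k :=
    Finset.single_le_sum (f := fun k => n.choose k) (fun _ _ => Nat.zero_le _)
      (by simp; omega)
  simpa using this

lemma ball_succ_le {n r : ℕ} (hrn : r ≤ n) :
    ball (n + 1) r * (n + 1 - r) ≤ (n + 1) * ball n r := by
  rw [ball_eq, ball_eq, Finset.sum_mul, Finset.mul_sum]
  refine Finset.sum_le_sum fun k hk => ?_
  rw [mem_range] at hk
  have h2 : (n + 1).choose k * (n + 1 - k) = (n + 1) * n.choose k := by
    have h3 := Nat.choose_mul_succ_eq n k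
    rw [← h3, mul_comm]
  rw [← h2]
  exact Nat.mul_le_mul_left _ (by omega)

/-- Adding a free coordinate. -/
lemma extend {n r : ℕ} {V : Submodule (ZMod 2) (Fin n → ZMod 2)} (hV : Covers n r V) :
    ∃ W : Submodule (ZMod 2) (Fin (n + 1) → ZMod 2), Covers (n + 1) r W ∧
      Nat.card W = 2 * Nat.card V := by
  classical
  let π : (Fin (n + 1) → ZMod 2) →ₗ[ZMod 2] (Fin n → ZMod 2) :=
    LinearMap.funLeft (ZMod 2) (ZMod 2) Fin.succ
  have hπ : ∀ x i, π x i = x i.succ := fun x i => rfl
  refine ⟨V.comap π, ?_, ?_⟩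
  · intro y
    obtain ⟨v, hv, hn⟩ := hV (π y)
    refine ⟨Fin.cons (y 0) v, ?_, ?_⟩
    · rw [Submodule.mem_comap]
      have : π (Fin.cons (y 0) v) = v := by
        ext i
        rw [hπ, Fin.cons_succ]
      rw [this]
      exact hv
    · refine le_trans (le_of_eq ?_) hn
      unfold hammingNorm
      symm
      apply Finset.card_bij (fun (i : Fin n) _ => i.succ)
      · intro i hi
        simp only [mem_filter, mem_univ, true_and, Pi.sub_apply, hπ] at hi ⊢
        rw [Fin.cons_succ]
        exact hi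
      · intro i _ j _ hij
        exact Fin.succ_injective _ hij
      · intro j hj
        simp only [mem_filter, mem_univ, true_and, Pi.sub_apply] at hj
        rcases Fin.eq_zero_or_eq_succ j with h0 | ⟨i, hi⟩
        · exfalso
          rw [h0, Fin.cons_zero] at hj
          exact hj (sub_self _)
        · refine ⟨i, ?_, hi.symm⟩
          simp only [mem_filter, mem_univ, true_and, Pi.sub_apply, hπ]
          rw [hi, Fin.cons_succ] at hj
          exact hj
  · have e : (V.comap π) ≃ (ZMod 2) × V :=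
      { toFun := fun x => (x.1 0, ⟨π x.1, x.2⟩)
        invFun := fun p => ⟨Fin.cons p.1 p.2.1, by
          rw [Submodule.mem_comap]
          have : π (Fin.cons p.1 p.2.1) = p.2.1 := by
            ext i
            rw [hπ, Fin.cons_succ]
          rw [this]
          exact p.2.2⟩
        left_inv := by
          intro x
          apply Subtype.ext
          funext i
          rcases Fin.eq_zero_or_eq_succ i with h0 | ⟨j, hj⟩
          · rw [h0]; rfl
          · rw [hj]; rfl
        right_inv := by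
          intro p
          apply Prod.ext
          · rfl
          · apply Subtype.ext
            funext i
            rfl }
    rw [Nat.card_congr e, Nat.card_prod, Nat.card_zmod]

lemma card_pow {n : ℕ} (V : Submodule (ZMod 2) (Fin n → ZMod 2)) :
    ∃ d : ℕ, Nat.card V = 2 ^ d := by
  refine ⟨Module.finrank (ZMod 2) V, ?_⟩
  have h := Module.natCard_eq_pow_finrank (K := ZMod 2) (V := V)
  rwa [Nat.card_zmod] at h

lemma covers_top (n r : ℕ) : Covers n r ⊤ := fun y => ⟨y, trivial, by simp⟩

lemma exists_min (n r : ℕ) : ∃ V : Submodule (ZMod 2) (Fin n → ZMod 2), Covers n r V ∧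
    ∀ W, Covers n r W → Nat.card V ≤ Nat.card W := by
  classical
  have hne : ∃ k : ℕ, ∃ V : Submodule (ZMod 2) (Fin n → ZMod 2), Covers n r V ∧ Nat.card V = k :=
    ⟨_, ⊤, covers_top n r, rfl⟩
  obtain ⟨V, hV, hk⟩ := Nat.find_spec hne
  refine ⟨V, hV, fun W hW => ?_⟩
  rw [hk]
  exact Nat.find_min' hne ⟨W, hW, rfl⟩

lemma m_eq {n r : ℕ} {V : Submodule (ZMod 2) (Fin n → ZMod 2)} (hV : Covers n r V)
    (hmin : ∀ W, Covers n r W → Nat.card V ≤ Nat.card W) :
    m n r = (Nat.card V : ℝ) * ball n r / 2 ^ n := by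
  apply le_antisymm
  · apply csInf_le
    · refine ⟨0, ?_⟩
      rintro t ⟨W, _, rfl⟩
      positivity
    · exact ⟨V, hV, rfl⟩
  · apply le_csInf
    · exact ⟨_, V, hV, rfl⟩
    · rintro t ⟨W, hW, rfl⟩
      have := hmin W hW
      have h2 : (Nat.card V : ℝ) ≤ Nat.card W := by exact_mod_cast this
      gcongr

/-- The sphere covering bound. -/
lemma one_le {n r : ℕ} {V : Submodule (ZMod 2) (Fin n → ZMod 2)} (hV : Covers n r V) :
    2 ^ n ≤ Nat.card V * ball n r := by
  classical
  have h1 : Nat.card (Fin n → ZMod 2) = 2 ^ n := by simp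
  have h2 : ∀ y : Fin n → ZMod 2, ∃ p : V × {x : Fin n → ZMod 2 // hammingNorm x ≤ r},
      (p.1 : Fin n → ZMod 2) + p.2.1 = y := by
    intro y
    obtain ⟨v, hv, hn⟩ := hV y
    exact ⟨(⟨v, hv⟩, ⟨y - v, hn⟩), by simp⟩
  have h3 := Nat.card_le_card_of_surjective
    (fun p : V × {x : Fin n → ZMod 2 // hammingNorm x ≤ r} =>
      (p.1 : Fin n → ZMod 2) + p.2.1) h2
  rw [h1, Nat.card_prod] at h3
  have h4 : Nat.card {x : Fin n → ZMod 2 // hammingNorm x ≤ r} = ball n r := by
    rw [Nat.card_eq_fintype_card, Fintype.card_subtype]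
    rfl
  rwa [h4] at h3

lemma one_le_m (n r : ℕ) : 1 ≤ m n r := by
  obtain ⟨V, hV, hmin⟩ := exists_min n r
  rw [m_eq hV hmin, le_div_iff₀ (by positivity), one_mul]
  exact_mod_cast one_le hV

/-- The step from `n` to `n + 1`: either the least size of a covering subspace doubles, or
`m(n + 1, r)` is at most half of `m(n, r)`, up to a factor tending to `1`. -/
lemma step {n r : ℕ} (hrn : r ≤ n) :
    m (n + 1) r = m n r * (ball (n + 1) r / ball n r) ∨
      2 * m (n + 1) r * ((n + 1 - r) / (n + 1)) ≤ m n r := by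
  obtain ⟨V, hV, hmin⟩ := exists_min n r
  obtain ⟨W, hW, hminW⟩ := exists_min (n + 1) r
  obtain ⟨W', hW', hcard⟩ := extend hV
  have h1 := hminW W' hW'
  rw [hcard] at h1
  obtain ⟨a, ha⟩ := card_pow V
  obtain ⟨b, hb⟩ := card_pow W
  rw [m_eq hV hmin, m_eq hW hminW, ha, hb]
  rw [ha, hb, ← pow_succ'] at h1
  have h2 : b ≤ a + 1 := (Nat.pow_le_pow_iff_right (by norm_num)).1 h1
  have hB : (0 : ℝ) < ball n r := by exact_mod_cast ball_pos n r
  rcases Nat.lt_or_ge a b with hab | hab
  · left
    have : b = a + 1 := by omega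
    subst this
    push_cast
    field_simp
    ring
  · right
    have hs : (ball (n + 1) r : ℝ) * (n + 1 - r) ≤ (n + 1) * ball n r := by
      have h := ball_succ_le hrn
      have h' : ((ball (n + 1) r * (n + 1 - r) : ℕ) : ℝ) ≤ (((n + 1) * ball n r : ℕ) : ℝ) := by
        exact_mod_cast h
      rw [Nat.cast_mul, Nat.cast_sub (by omega)] at h'
      push_cast at h'
      linarith
    have hpow : (2 : ℝ) ^ b ≤ 2 ^ a := pow_le_pow_right₀ (by norm_num) hab
    have hn : (0 : ℝ) < (n : ℝ) + 1 := by positivity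
    have hBn : (0 : ℝ) ≤ ball (n + 1) r := by positivity
    have hnr : (0 : ℝ) ≤ (n : ℝ) + 1 - r := by
      have : (r : ℝ) ≤ n := by exact_mod_cast hrn
      linarith
    push_cast
    calc 2 * ((2 : ℝ) ^ b * ball (n + 1) r / 2 ^ (n + 1)) * ((n + 1 - r) / (n + 1))
        = 2 ^ b * (ball (n + 1) r * (n + 1 - r)) / (2 ^ n * (n + 1)) := by
          rw [pow_succ]
          field_simp
      _ ≤ 2 ^ a * ((n + 1) * ball n r) / (2 ^ n * (n + 1)) := by
          gcongr
      _ = 2 ^ a * ball n r / 2 ^ n := by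
          field_simp

end Pool.Agent.K7.H24.FA
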