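import Pool.Agent.K7.H24.FA.Basic

/-!
# Linear covering codes: `f_all(r) ≥ 2 f(r) ≥ 2` (MP_e73f90_co)
-/

set_option autoImplicit false

namespace Pool.Agent.K7.H24.FA

open Finset Filter Topology

lemma one_le_fInf (r : ℕ) : 1 ≤ fInf r := by
  unfold fInf
  refine le_liminf_of_le (by isBoundedDefault) (Eventually.of_forall fun n => ?_)
  rw [← ENNReal.ofReal_one]
  exact ENNReal.ofReal_le_ofReal (one_le_m n r)

theorem two_mul_le {r : ℕ} (hr : 1 ≤ r) : 2 * fInf r ≤ fAll r := by
  by_contra hcon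
  rw [not_le] at hcon
  obtain ⟨q, hq1, hq2⟩ := ENNReal.lt_iff_exists_nnreal_btwn.1 hcon
  have h3 : ((q / 2 : NNReal) : ENNReal) < fInf r := by
    rw [ENNReal.coe_div (by norm_num)]
    apply ENNReal.div_lt_of_lt_mul'
    exact_mod_cast hq2
  obtain ⟨p, hp1, hp2⟩ := ENNReal.lt_iff_exists_nnreal_btwn.1 h3
  have hpq : (q : ℝ) < 2 * p := by
    have : (q / 2 : NNReal) < p := by exact_mod_cast hp1
    have h' : ((q / 2 : NNReal) : ℝ) < p := by exact_mod_cast this
    push_cast at h'
    linarith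
  have e1 : ∀ᶠ n in atTop, m n r < q := by
    have : ∀ᶠ n in atTop, ENNReal.ofReal (m n r) < q := eventually_lt_of_limsup_lt hq1
    filter_upwards [this] with n hn
    rw [← ENNReal.ofReal_coe_nnreal] at hn
    exact (ENNReal.ofReal_lt_ofReal_iff_of_nonneg (by linarith [one_le_m n r])).1 hn
  have e2 : ∀ᶠ n in atTop, (p : ℝ) < m n r := by
    have : ∀ᶠ n in atTop, (p : ENNReal) < ENNReal.ofReal (m n r) :=
      eventually_lt_of_lt_liminf hp2
    filter_upwards [this] with n hn
    rw [← ENNReal.ofReal_coe_nnreal] at hn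
    exact (ENNReal.ofReal_lt_ofReal_iff_of_nonneg p.2).1 hn
  have e3 : ∀ᶠ n : ℕ in atTop, 2 * (p : ℝ) * r / (2 * p - q) < n :=
    tendsto_natCast_atTop_atTop.eventually_gt_atTop _
  obtain ⟨N1, hN1⟩ := eventually_atTop.1 e1
  obtain ⟨N2, hN2⟩ := eventually_atTop.1 e2
  obtain ⟨N3, hN3⟩ := eventually_atTop.1 e3
  set N := max (max N1 N2) (max N3 r) with hN
  have hall : ∀ n, N ≤ n → m (n + 1) r = m n r * (ball (n + 1) r / ball n r) := by
    intro n hn
    have g1 : N1 ≤ n := by omega
    have g2 : N2 ≤ n := by omega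
    have g3 : N3 ≤ n := by omega
    have g4 : r ≤ n := by omega
    rcases step g4 with h | h
    · exact h
    · exfalso
      have h1 := hN1 n g1
      have h2 := hN2 (n + 1) (by omega)
      have h4 := hN3 n g3
      rw [div_lt_iff₀ (by linarith)] at h4
      have hn : (0 : ℝ) < (n : ℝ) + 1 := by positivity
      have hnr : (0 : ℝ) < (n : ℝ) + 1 - r := by
        have : (r : ℝ) ≤ n := by exact_mod_cast g4
        linarith
      have h5 : 2 * (p : ℝ) * ((n + 1 - r) / (n + 1)) < q := by
        calc 2 * (p : ℝ) * ((n + 1 - r) / (n + 1))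
            ≤ 2 * m (n + 1) r * ((n + 1 - r) / (n + 1)) := by gcongr
          _ ≤ m n r := h
          _ < q := h1
      rw [← mul_div_assoc, div_lt_iff₀ hn] at h5
      nlinarith
  have hB : ∀ n, (0 : ℝ) < ball n r := fun n => by exact_mod_cast ball_pos n r
  have hind : ∀ k, m (N + k) r = m N r * (ball (N + k) r / ball N r) := by
    intro k
    induction k with
    | zero =>
      rw [Nat.add_zero, div_self (hB N).ne', mul_one]
    | succ k ih =>
      rw [show N + (k + 1) = N + k + 1 by ring, hall (N + k) (by omega), ih]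
      have := hB (N + k)
      have := hB N
      field_simp
  have e4 : ∀ᶠ n : ℕ in atTop, (q : ℝ) * ball N r < n :=
    tendsto_natCast_atTop_atTop.eventually_gt_atTop _
  obtain ⟨N4, hN4⟩ := eventually_atTop.1 e4
  have h1 := hN1 (N + N4) (by omega)
  have h2 := hN4 (N + N4) (by omega)
  have h3 : ((N + N4 : ℕ) : ℝ) ≤ ball (N + N4) r := by exact_mod_cast le_ball hr
  rw [hind N4, ← mul_div_assoc, div_lt_iff₀ (hB N)] at h1
  have h4 := one_le_m N r
  have h5 := hB (N + N4)
  nlinarith

theorem two_le {r : ℕ} (hr : 1 ≤ r) : 2 ≤ fAll r :=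
  le_trans (by simpa using mul_le_mul_right (one_le_fInf r) 2) (two_mul_le hr)

end Pool.Agent.K7.H24.FA
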